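import Pool.Agent.R21.HF.Pot

/-!
# The charts of the blow-up of the projective plane at a point, changes of charts
-/

set_option autoImplicit false

open Complex Matrix Filter Topology
open scoped ComplexConjugate ContDiff LinearAlgebra.Projectivization

namespace Pool.Agent.R21.HF

/-- change of the base coordinate -/
noncomputable def bas (b q : Bool) (x : V) : V :=
  if b then (x.1⁻¹, if q then x.2 / x.1 else x.1 * x.2) else x

/-- change of the fibre coordinate -/
noncomputable def fib (f : Bool) (x : V) : V := if f then (x.1, x.2⁻¹) else x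

lemma chart_eq (i j : Ch) (x y : V) (h : chart j y = chart i x) :
    (i.1 ≠ j.1 → x.1 ≠ 0) ∧ (i.2 ≠ j.2 → x.2 ≠ 0) ∧
      y = fib (i.2 != j.2) (bas (i.1 != j.1) i.2 x) := by
  obtain ⟨h1, h2⟩ := Prod.ext_iff.mp h
  simp only [chart] at h1 h2
  rw [Projectivization.mk_eq_mk_iff'] at h1 h2
  obtain ⟨b, hb⟩ := h1
  obtain ⟨a, ha⟩ := h2
  have a0 := congrFun ha 0
  have a1 := congrFun ha 1
  have b0 := congrFun hb 0
  have b1 := congrFun hb 1
  have b2 := congrFun hb 2
  obtain ⟨y1, y2⟩ := y
  obtain ⟨x1, x2⟩ := x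
  rcases i with ⟨_ | _, _ | _⟩ <;> rcases j with ⟨_ | _, _ | _⟩ <;>
    simp [line, plane] at a0 a1 b0 b1 b2 <;>
    simp [bas, fib] <;>
    clear ha hb h
  all_goals grind

/-- derivative of the change of the base coordinate -/
noncomputable def dbas (b q : Bool) (x u : V) : V :=
  if b then (-(u.1 / x.1 ^ 2), if q then u.2 / x.1 - x.2 * u.1 / x.1 ^ 2
    else u.1 * x.2 + x.1 * u.2) else u

/-- derivative of the change of the fibre coordinate -/
noncomputable def dfib (f : Bool) (x u : V) : V := if f then (u.1, -(u.2 / x.2 ^ 2)) else u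

/-! ### complex expressions of the coefficients -/

lemma mm_c (x : V) : ((mm x : ℝ) : ℂ) = 1 + x.1 * conj x.1 := by
  rw [Complex.mul_conj, Complex.normSq_apply, mm]; push_cast; ring
lemma ss_c (x : V) : ((ss x : ℝ) : ℂ) = x.2 * conj x.2 := by
  rw [Complex.mul_conj, Complex.normSq_apply, ss]; push_cast; ring

lemma cA_c (q : Bool) (x : V) :
    cA q x = ((sg q : ℝ) : ℂ) * (conj x.1 * x.2) / ((N1 q x : ℝ) : ℂ) ^ 2 := by
  have h : cA q x = ((sg q / N1 q x ^ 2 : ℝ) : ℂ) * (conj x.1 * x.2) := by
    apply Complex.ext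
    · rw [Complex.re_ofReal_mul]; simp only [cA, Complex.mul_re, Complex.conj_re, Complex.conj_im]
      ring
    · rw [Complex.im_ofReal_mul]; simp only [cA, Complex.mul_im, Complex.conj_re, Complex.conj_im]
      ring
  rw [h]; push_cast; ring

lemma cB_c (q : Bool) (x : V) :
    cB q x = -(((sg q : ℝ) : ℂ) * (conj x.1 * x.2) / ((N2 q x : ℝ) : ℂ) ^ 2) := by
  have h : cB q x = ((-(sg q / N2 q x ^ 2) : ℝ) : ℂ) * (conj x.1 * x.2) := by
    apply Complex.ext
    · rw [Complex.re_ofReal_mul]; simp only [cB, Complex.mul_re, Complex.conj_re, Complex.conj_im]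
      ring
    · rw [Complex.im_ofReal_mul]; simp only [cB, Complex.mul_im, Complex.conj_re, Complex.conj_im]
      ring
  rw [h]; push_cast; ring

lemma Hh_bas_A (q : Bool) (x u v : V) (hx : x.1 ≠ 0) :
    Hh (pA q (bas true q x)) (qA q (bas true q x)) (cA q (bas true q x))
      (dbas true q x u) (dbas true q x v) = Hh (pA q x) (qA q x) (cA q x) u v := by
  have hx' : conj x.1 ≠ 0 := by simpa using hx
  have hM : ((mm x : ℝ) : ℂ) ≠ 0 := by exact_mod_cast (mm_pos x).ne'
  have hN : ((N1 q x : ℝ) : ℂ) ≠ 0 := by exact_mod_cast (N1_pos q x).ne'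
  have hM' : ((mm (bas true q x) : ℝ) : ℂ) = ((mm x : ℝ) : ℂ) / (x.1 * conj x.1) := by
    rw [mm_c, mm_c]; simp [bas]; field_simp; ring
  have e1 := mm_c x
  have e2 := ss_c x
  cases q
  · have hS' : ((ss (bas true false x) : ℝ) : ℂ) = x.1 * conj x.1 * ((ss x : ℝ) : ℂ) := by
      rw [ss_c, ss_c]; simp [bas]; ring
    have hN' : ((N1 false (bas true false x) : ℝ) : ℂ) = ((N1 false x : ℝ) : ℂ) := by
      simp only [N1]; push_cast; rw [hM', hS']; field_simp
    have e3 : ((N1 false x : ℝ) : ℂ) = 1 + ((ss x : ℝ) : ℂ) * ((mm x : ℝ) : ℂ) := by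
      simp only [N1]; push_cast; rfl
    simp only [Hh, cA_c, pA, qA, dbas, sg]
    push_cast
    rw [hM', hS', hN']
    simp only [bas, fib, if_true, map_mul, map_div₀, map_inv₀, map_pow, map_add, map_sub, map_neg,
      Complex.conj_conj, Complex.conj_ofReal, map_one, Bool.false_eq_true, if_false,
      Bool.not_true, Bool.not_false]
    generalize ((mm x : ℝ) : ℂ) = M at *
    generalize ((ss x : ℝ) : ℂ) = S at *
    generalize ((N1 false x : ℝ) : ℂ) = N at *
    generalize conj x.1 = Wb at *
    generalize conj x.2 = Zb at *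
    generalize conj v.1 = v1 at *
    generalize conj v.2 = v2 at *
    generalize x.1 = W at *
    generalize x.2 = Z at *
    field_simp
    rw [e3, e1, e2]
    ring
  · have hS' : ((ss (bas true true x) : ℝ) : ℂ) = ((ss x : ℝ) : ℂ) / (x.1 * conj x.1) := by
      rw [ss_c, ss_c]; simp [bas]; field_simp
    have hN' : ((N1 true (bas true true x) : ℝ) : ℂ) = ((N1 true x : ℝ) : ℂ) / (x.1 * conj x.1) := by
      simp only [N1]; push_cast; rw [hM', hS']; field_simp
    have e3 : ((N1 true x : ℝ) : ℂ) = ((ss x : ℝ) : ℂ) + ((mm x : ℝ) : ℂ) := by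
      simp only [N1]; push_cast; rfl
    simp only [Hh, cA_c, pA, qA, dbas, sg]
    push_cast
    rw [hM', hS', hN']
    simp only [bas, fib, if_true, map_mul, map_div₀, map_inv₀, map_pow, map_add, map_sub, map_neg,
      Complex.conj_conj, Complex.conj_ofReal, map_one, Bool.false_eq_true, if_false,
      Bool.not_true, Bool.not_false]
    generalize ((mm x : ℝ) : ℂ) = M at *
    generalize ((ss x : ℝ) : ℂ) = S at *
    generalize ((N1 true x : ℝ) : ℂ) = N at *
    generalize conj x.1 = Wb at *
    generalize conj x.2 = Zb at *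
    generalize conj v.1 = v1 at *
    generalize conj v.2 = v2 at *
    generalize x.1 = W at *
    generalize x.2 = Z at *
    field_simp
    rw [e3, e1, e2]
    ring

lemma Hh_fib_A (q : Bool) (x u v : V) (hx : x.2 ≠ 0) :
    Hh (pA (!q) (fib true x)) (qA (!q) (fib true x)) (cA (!q) (fib true x))
      (dfib true x u) (dfib true x v) = Hh (pA q x) (qA q x) (cA q x) u v := by
  have hx' : conj x.2 ≠ 0 := by simpa using hx
  have hM : ((mm x : ℝ) : ℂ) ≠ 0 := by exact_mod_cast (mm_pos x).ne'
  have hN : ((N1 q x : ℝ) : ℂ) ≠ 0 := by exact_mod_cast (N1_pos q x).ne'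
  have hM' : ((mm (fib true x) : ℝ) : ℂ) = ((mm x : ℝ) : ℂ) := by
    rw [mm_c, mm_c]; simp [fib]
  have hS' : ((ss (fib true x) : ℝ) : ℂ) = 1 / (x.2 * conj x.2) := by
    rw [ss_c]; simp [fib]; ring
  have e1 := mm_c x
  have e2 := ss_c x
  cases q
  · have e3 : ((N1 false x : ℝ) : ℂ) = 1 + ((ss x : ℝ) : ℂ) * ((mm x : ℝ) : ℂ) := by
      simp only [N1]; push_cast; rfl
    have hN' : ((N1 true (fib true x) : ℝ) : ℂ) = ((N1 false x : ℝ) : ℂ) / (x.2 * conj x.2) := by
      rw [e3, e2]; simp only [N1]; push_cast; rw [hM', hS']; field_simp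
    simp only [Hh, cA_c, pA, qA, dfib, sg, Bool.not_true, Bool.not_false]
    push_cast
    rw [hM', hS', hN']
    simp only [bas, fib, if_true, map_mul, map_div₀, map_inv₀, map_pow, map_add, map_sub, map_neg,
      Complex.conj_conj, Complex.conj_ofReal, map_one, Bool.false_eq_true, if_false,
      Bool.not_true, Bool.not_false]
    generalize ((mm x : ℝ) : ℂ) = M at *
    generalize ((ss x : ℝ) : ℂ) = S at *
    generalize ((N1 false x : ℝ) : ℂ) = N at *
    generalize conj x.1 = Wb at *
    generalize conj x.2 = Zb at *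
    generalize conj v.1 = v1 at *
    generalize conj v.2 = v2 at *
    generalize x.1 = W at *
    generalize x.2 = Z at *
    field_simp
    rw [e3, e1, e2]
    ring
  · have e3 : ((N1 true x : ℝ) : ℂ) = ((ss x : ℝ) : ℂ) + ((mm x : ℝ) : ℂ) := by
      simp only [N1]; push_cast; rfl
    have hN' : ((N1 false (fib true x) : ℝ) : ℂ) = ((N1 true x : ℝ) : ℂ) / (x.2 * conj x.2) := by
      rw [e3, e2]; simp only [N1]; push_cast; rw [hM', hS']; field_simp
    simp only [Hh, cA_c, pA, qA, dfib, sg, Bool.not_true, Bool.not_false]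
    push_cast
    rw [hM', hS', hN']
    simp only [bas, fib, if_true, map_mul, map_div₀, map_inv₀, map_pow, map_add, map_sub, map_neg,
      Complex.conj_conj, Complex.conj_ofReal, map_one, Bool.false_eq_true, if_false,
      Bool.not_true, Bool.not_false]
    generalize ((mm x : ℝ) : ℂ) = M at *
    generalize ((ss x : ℝ) : ℂ) = S at *
    generalize ((N1 true x : ℝ) : ℂ) = N at *
    generalize conj x.1 = Wb at *
    generalize conj x.2 = Zb at *
    generalize conj v.1 = v1 at *
    generalize conj v.2 = v2 at *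
    generalize x.1 = W at *
    generalize x.2 = Z at *
    field_simp
    rw [e3, e1, e2]
    ring

lemma Hh_bas_B (q : Bool) (x u v : V) (hx : x.1 ≠ 0) :
    Hh (pB q (bas true q x)) (qB q (bas true q x)) (cB q (bas true q x))
      (dbas true q x u) (dbas true q x v) = Hh (pB q x) (qB q x) (cB q x) u v := by
  have hx' : conj x.1 ≠ 0 := by simpa using hx
  have hM : ((mm x : ℝ) : ℂ) ≠ 0 := by exact_mod_cast (mm_pos x).ne'
  have hN : ((N2 q x : ℝ) : ℂ) ≠ 0 := by exact_mod_cast (N2_pos q x).ne'
  have hM' : ((mm (bas true q x) : ℝ) : ℂ) = ((mm x : ℝ) : ℂ) / (x.1 * conj x.1) := by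
    rw [mm_c, mm_c]; simp [bas]; field_simp; ring
  have e1 := mm_c x
  have e2 := ss_c x
  cases q
  · have hS' : ((ss (bas true false x) : ℝ) : ℂ) = x.1 * conj x.1 * ((ss x : ℝ) : ℂ) := by
      rw [ss_c, ss_c]; simp [bas]; ring
    have hN' : ((N2 false (bas true false x) : ℝ) : ℂ) = ((N2 false x : ℝ) : ℂ) := by
      simp only [N2]; push_cast; rw [hM', hS']; field_simp
    have e3 : ((N2 false x : ℝ) : ℂ) = 1 + 2 * (((ss x : ℝ) : ℂ) * ((mm x : ℝ) : ℂ)) := by
      simp only [N2]; push_cast; rfl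
    simp only [Hh, cB_c, pB, qB, dbas, sg]
    push_cast
    rw [hM', hS', hN']
    simp only [bas, fib, if_true, map_mul, map_div₀, map_inv₀, map_pow, map_add, map_sub, map_neg,
      Complex.conj_conj, Complex.conj_ofReal, map_one, Bool.false_eq_true, if_false,
      Bool.not_true, Bool.not_false]
    generalize ((mm x : ℝ) : ℂ) = M at *
    generalize ((ss x : ℝ) : ℂ) = S at *
    generalize ((N2 false x : ℝ) : ℂ) = N at *
    generalize conj x.1 = Wb at *
    generalize conj x.2 = Zb at *
    generalize conj v.1 = v1 at *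
    generalize conj v.2 = v2 at *
    generalize x.1 = W at *
    generalize x.2 = Z at *
    field_simp
    rw [e3, e1, e2]
    ring
  · have hS' : ((ss (bas true true x) : ℝ) : ℂ) = ((ss x : ℝ) : ℂ) / (x.1 * conj x.1) := by
      rw [ss_c, ss_c]; simp [bas]; field_simp
    have hN' : ((N2 true (bas true true x) : ℝ) : ℂ) = ((N2 true x : ℝ) : ℂ) / (x.1 * conj x.1) := by
      simp only [N2]; push_cast; rw [hM', hS']; field_simp
    have e3 : ((N2 true x : ℝ) : ℂ) = ((ss x : ℝ) : ℂ) + 2 * ((mm x : ℝ) : ℂ) := by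
      simp only [N2]; push_cast; rfl
    simp only [Hh, cB_c, pB, qB, dbas, sg]
    push_cast
    rw [hM', hS', hN']
    simp only [bas, fib, if_true, map_mul, map_div₀, map_inv₀, map_pow, map_add, map_sub, map_neg,
      Complex.conj_conj, Complex.conj_ofReal, map_one, Bool.false_eq_true, if_false,
      Bool.not_true, Bool.not_false]
    generalize ((mm x : ℝ) : ℂ) = M at *
    generalize ((ss x : ℝ) : ℂ) = S at *
    generalize ((N2 true x : ℝ) : ℂ) = N at *
    generalize conj x.1 = Wb at *
    generalize conj x.2 = Zb at *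
    generalize conj v.1 = v1 at *
    generalize conj v.2 = v2 at *
    generalize x.1 = W at *
    generalize x.2 = Z at *
    field_simp
    rw [e3, e1, e2]
    ring

lemma Hh_fib_B (q : Bool) (x u v : V) (hx : x.2 ≠ 0) :
    Hh (pB (!q) (fib true x)) (qB (!q) (fib true x)) (cB (!q) (fib true x))
      (dfib true x u) (dfib true x v) = Hh (pB q x) (qB q x) (cB q x) u v := by
  have hx' : conj x.2 ≠ 0 := by simpa using hx
  have hM : ((mm x : ℝ) : ℂ) ≠ 0 := by exact_mod_cast (mm_pos x).ne'
  have hN : ((N2 q x : ℝ) : ℂ) ≠ 0 := by exact_mod_cast (N2_pos q x).ne'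
  have hM' : ((mm (fib true x) : ℝ) : ℂ) = ((mm x : ℝ) : ℂ) := by
    rw [mm_c, mm_c]; simp [fib]
  have hS' : ((ss (fib true x) : ℝ) : ℂ) = 1 / (x.2 * conj x.2) := by
    rw [ss_c]; simp [fib]; ring
  have e1 := mm_c x
  have e2 := ss_c x
  cases q
  · have e3 : ((N2 false x : ℝ) : ℂ) = 1 + 2 * (((ss x : ℝ) : ℂ) * ((mm x : ℝ) : ℂ)) := by
      simp only [N2]; push_cast; rfl
    have hN' : ((N2 true (fib true x) : ℝ) : ℂ) = ((N2 false x : ℝ) : ℂ) / (x.2 * conj x.2) := by
      rw [e3, e2]; simp only [N2]; push_cast; rw [hM', hS']; field_simp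
    simp only [Hh, cB_c, pB, qB, dfib, sg, Bool.not_true, Bool.not_false]
    push_cast
    rw [hM', hS', hN']
    simp only [bas, fib, if_true, map_mul, map_div₀, map_inv₀, map_pow, map_add, map_sub, map_neg,
      Complex.conj_conj, Complex.conj_ofReal, map_one, Bool.false_eq_true, if_false,
      Bool.not_true, Bool.not_false]
    generalize ((mm x : ℝ) : ℂ) = M at *
    generalize ((ss x : ℝ) : ℂ) = S at *
    generalize ((N2 false x : ℝ) : ℂ) = N at *
    generalize conj x.1 = Wb at *
    generalize conj x.2 = Zb at *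
    generalize conj v.1 = v1 at *
    generalize conj v.2 = v2 at *
    generalize x.1 = W at *
    generalize x.2 = Z at *
    field_simp
    rw [e3, e1, e2]
    ring
  · have e3 : ((N2 true x : ℝ) : ℂ) = ((ss x : ℝ) : ℂ) + 2 * ((mm x : ℝ) : ℂ) := by
      simp only [N2]; push_cast; rfl
    have hN' : ((N2 false (fib true x) : ℝ) : ℂ) = ((N2 true x : ℝ) : ℂ) / (x.2 * conj x.2) := by
      rw [e3, e2]; simp only [N2]; push_cast; rw [hM', hS']; field_simp
    simp only [Hh, cB_c, pB, qB, dfib, sg, Bool.not_true, Bool.not_false]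
    push_cast
    rw [hM', hS', hN']
    simp only [bas, fib, if_true, map_mul, map_div₀, map_inv₀, map_pow, map_add, map_sub, map_neg,
      Complex.conj_conj, Complex.conj_ofReal, map_one, Bool.false_eq_true, if_false,
      Bool.not_true, Bool.not_false]
    generalize ((mm x : ℝ) : ℂ) = M at *
    generalize ((ss x : ℝ) : ℂ) = S at *
    generalize ((N2 true x : ℝ) : ℂ) = N at *
    generalize conj x.1 = Wb at *
    generalize conj x.2 = Zb at *
    generalize conj v.1 = v1 at *
    generalize conj v.2 = v2 at *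
    generalize x.1 = W at *
    generalize x.2 = Z at *
    field_simp
    rw [e3, e1, e2]
    ring

end Pool.Agent.R21.HF
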