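import Pool.Agent.R21.HF.Herm

/-!
# The Kähler form and the primitive form in the four charts
-/

set_option autoImplicit false

open Complex Matrix
open scoped ComplexConjugate ContDiff

namespace Pool.Agent.R21.HF

/-- `1 + |w|²` -/
noncomputable def mm (x : V) : ℝ := 1 + (x.1.re ^ 2 + x.1.im ^ 2)

/-- `|ζ|²` -/
noncomputable def ss (x : V) : ℝ := x.2.re ^ 2 + x.2.im ^ 2

/-- first denominator -/
noncomputable def N1 : Bool → V → ℝ
  | false, x => 1 + ss x * mm x
  | true, x => ss x + mm x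

/-- second denominator -/
noncomputable def N2 : Bool → V → ℝ
  | false, x => 1 + 2 * (ss x * mm x)
  | true, x => ss x + 2 * mm x

/-- coefficient of the Kähler form -/
noncomputable def pA : Bool → V → ℝ
  | false, x => ss x * (1 + ss x) / N1 false x ^ 2 + 1 / mm x ^ 2
  | true, x => (1 + ss x) / N1 true x ^ 2 + 1 / mm x ^ 2

/-- coefficient of the Kähler form -/
noncomputable def qA (q : Bool) (x : V) : ℝ := mm x / N1 q x ^ 2

/-- sign -/
noncomputable def sg : Bool → ℝ
  | false => 1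
  | true => -1

/-- coefficient of the Kähler form -/
noncomputable def cA (q : Bool) (x : V) : ℂ :=
  ⟨sg q * (x.1.re * x.2.re + x.1.im * x.2.im) / N1 q x ^ 2,
    sg q * (x.1.re * x.2.im - x.1.im * x.2.re) / N1 q x ^ 2⟩

/-- coefficient of the primitive form -/
noncomputable def pB : Bool → V → ℝ
  | false, x => 1 / mm x ^ 2 - ss x * (1 + 2 * ss x) / N2 false x ^ 2
  | true, x => 1 / mm x ^ 2 - (2 + ss x) / N2 true x ^ 2

/-- coefficient of the primitive form -/
noncomputable def qB (q : Bool) (x : V) : ℝ := -(mm x / N2 q x ^ 2)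

/-- coefficient of the primitive form -/
noncomputable def cB (q : Bool) (x : V) : ℂ :=
  ⟨-(sg q * (x.1.re * x.2.re + x.1.im * x.2.im) / N2 q x ^ 2),
    -(sg q * (x.1.re * x.2.im - x.1.im * x.2.re) / N2 q x ^ 2)⟩

lemma mm_ge (x : V) : 1 ≤ mm x := by unfold mm; nlinarith [sq_nonneg x.1.re, sq_nonneg x.1.im]
lemma mm_pos (x : V) : 0 < mm x := by linarith [mm_ge x]
lemma ss_nonneg (x : V) : 0 ≤ ss x := by unfold ss; positivity
lemma N1_pos (q : Bool) (x : V) : 0 < N1 q x := by
  have := mm_pos x; have := ss_nonneg x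
  cases q <;> simp only [N1] <;> positivity
lemma N2_pos (q : Bool) (x : V) : 0 < N2 q x := by
  have := mm_pos x; have := ss_nonneg x
  cases q <;> simp only [N2] <;> positivity

lemma pA_pos (q : Bool) (x : V) : 0 < pA q x := by
  have h1 := mm_pos x; have h2 := ss_nonneg x
  have h3 := N1_pos q x
  cases q <;> simp only [pA] <;> positivity

lemma cross (x : V) : (x.1.re * x.2.re + x.1.im * x.2.im) ^ 2
    + (x.1.re * x.2.im - x.1.im * x.2.re) ^ 2 = (mm x - 1) * ss x := by
  unfold mm ss; ring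

lemma sg_sq (q : Bool) : sg q ^ 2 = 1 := by cases q <;> simp [sg]

lemma cA_sq (q : Bool) (x : V) : (cA q x).re ^ 2 + (cA q x).im ^ 2
    = (mm x - 1) * ss x / N1 q x ^ 4 := by
  have h := cross x
  have h3 := (N1_pos q x).ne'
  simp only [cA]
  rw [div_pow, div_pow, mul_pow, mul_pow, sg_sq, one_mul, one_mul, ← add_div, h]
  congr 1
  ring

lemma det_pos (q : Bool) (x : V) :
    0 < pA q x * qA q x - ((cA q x).re ^ 2 + (cA q x).im ^ 2) := by
  rw [cA_sq]
  have h1 := mm_pos x; have h2 := ss_nonneg x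
  have h3 := N1_pos q x
  cases q
  · have e : pA false x * qA false x - (mm x - 1) * ss x / N1 false x ^ 4
        = ss x / N1 false x ^ 3 + 1 / (mm x * N1 false x ^ 2) := by
      simp only [pA, qA]
      have h4 : N1 false x = 1 + ss x * mm x := rfl
      field_simp
      rw [h4]
      ring
    rw [e]
    positivity
  · have e : pA true x * qA true x - (mm x - 1) * ss x / N1 true x ^ 4
        = 1 / N1 true x ^ 3 + 1 / (mm x * N1 true x ^ 2) := by
      simp only [pA, qA]
      have h4 : N1 true x = ss x + mm x := rfl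
      field_simp
      rw [h4]
      ring
    rw [e]
    positivity

lemma trace_zero (q : Bool) (x : V) : pA q x * qB q x + qA q x * pB q x
    - 2 * ((cA q x).re * (cB q x).re + (cA q x).im * (cB q x).im) = 0 := by
  have h := cross x
  have h1 := (mm_pos x).ne'
  have h3 := (N1_pos q x).ne'
  have h5 := (N2_pos q x).ne'
  have e : (cA q x).re * (cB q x).re + (cA q x).im * (cB q x).im
      = -((mm x - 1) * ss x / (N1 q x ^ 2 * N2 q x ^ 2)) := by
    simp only [cA, cB]
    have h6 := sg_sq q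
    field_simp
    linear_combination (-sg q ^ 2) * h - ((mm x - 1) * ss x) * h6
  rw [e]
  cases q
  · simp only [pA, qA, pB, qB]
    have h4 : N1 false x = 1 + ss x * mm x := rfl
    have h6 : N2 false x = 1 + 2 * (ss x * mm x) := rfl
    field_simp
    rw [h4, h6]
    ring
  · simp only [pA, qA, pB, qB]
    have h4 : N1 true x = ss x + mm x := rfl
    have h6 : N2 true x = ss x + 2 * mm x := rfl
    field_simp
    rw [h4, h6]
    ring

/-! ### smoothness -/

lemma smooth_mm : ContDiff ℝ ∞ mm := by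
  unfold mm
  have h1 : ContDiff ℝ ∞ (fun x : V => x.1.re) := Complex.reCLM.contDiff.comp contDiff_fst
  have h2 : ContDiff ℝ ∞ (fun x : V => x.1.im) := Complex.imCLM.contDiff.comp contDiff_fst
  exact contDiff_const.add ((h1.pow 2).add (h2.pow 2))

lemma smooth_ss : ContDiff ℝ ∞ ss := by
  unfold ss
  have h1 : ContDiff ℝ ∞ (fun x : V => x.2.re) := Complex.reCLM.contDiff.comp contDiff_snd
  have h2 : ContDiff ℝ ∞ (fun x : V => x.2.im) := Complex.imCLM.contDiff.comp contDiff_snd
  exact (h1.pow 2).add (h2.pow 2)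

lemma smooth_N1 (q : Bool) : ContDiff ℝ ∞ (N1 q) := by
  cases q
  · exact contDiff_const.add (smooth_ss.mul smooth_mm)
  · exact smooth_ss.add smooth_mm

lemma smooth_N2 (q : Bool) : ContDiff ℝ ∞ (N2 q) := by
  cases q
  · exact contDiff_const.add (contDiff_const.mul (smooth_ss.mul smooth_mm))
  · exact smooth_ss.add (contDiff_const.mul smooth_mm)

lemma smooth_pA (q : Bool) : ContDiff ℝ ∞ (pA q) := by
  have h1 : ContDiff ℝ ∞ (fun x => 1 / mm x ^ 2) :=
    contDiff_const.div (smooth_mm.pow 2) (fun x => pow_ne_zero 2 (mm_pos x).ne')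
  cases q
  · exact ((smooth_ss.mul (contDiff_const.add smooth_ss)).div ((smooth_N1 false).pow 2)
      (fun x => pow_ne_zero 2 (N1_pos _ x).ne')).add h1
  · exact ((contDiff_const.add smooth_ss).div ((smooth_N1 true).pow 2)
      (fun x => pow_ne_zero 2 (N1_pos _ x).ne')).add h1

lemma smooth_qA (q : Bool) : ContDiff ℝ ∞ (qA q) :=
  smooth_mm.div ((smooth_N1 q).pow 2) (fun x => pow_ne_zero 2 (N1_pos _ x).ne')

lemma smooth_pB (q : Bool) : ContDiff ℝ ∞ (pB q) := by
  have h1 : ContDiff ℝ ∞ (fun x => 1 / mm x ^ 2) :=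
    contDiff_const.div (smooth_mm.pow 2) (fun x => pow_ne_zero 2 (mm_pos x).ne')
  cases q
  · exact h1.sub ((smooth_ss.mul (contDiff_const.add (contDiff_const.mul smooth_ss))).div
      ((smooth_N2 false).pow 2) (fun x => pow_ne_zero 2 (N2_pos _ x).ne'))
  · exact h1.sub ((contDiff_const.add smooth_ss).div ((smooth_N2 true).pow 2)
      (fun x => pow_ne_zero 2 (N2_pos _ x).ne'))

lemma smooth_qB (q : Bool) : ContDiff ℝ ∞ (qB q) :=
  (smooth_mm.div ((smooth_N2 q).pow 2) (fun x => pow_ne_zero 2 (N2_pos _ x).ne')).neg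

lemma smooth_c0 : ContDiff ℝ ∞ (fun x : V => x.1.re * x.2.re + x.1.im * x.2.im) ∧
    ContDiff ℝ ∞ (fun x : V => x.1.re * x.2.im - x.1.im * x.2.re) := by
  have h1 : ContDiff ℝ ∞ (fun x : V => x.1.re) := Complex.reCLM.contDiff.comp contDiff_fst
  have h2 : ContDiff ℝ ∞ (fun x : V => x.1.im) := Complex.imCLM.contDiff.comp contDiff_fst
  have h3 : ContDiff ℝ ∞ (fun x : V => x.2.re) := Complex.reCLM.contDiff.comp contDiff_snd
  have h4 : ContDiff ℝ ∞ (fun x : V => x.2.im) := Complex.imCLM.contDiff.comp contDiff_snd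
  exact ⟨(h1.mul h3).add (h2.mul h4), (h1.mul h4).sub (h2.mul h3)⟩

lemma smooth_cA (q : Bool) :
    ContDiff ℝ ∞ (fun x => (cA q x).re) ∧ ContDiff ℝ ∞ (fun x => (cA q x).im) :=
  ⟨(contDiff_const.mul smooth_c0.1).div ((smooth_N1 q).pow 2)
    (fun x => pow_ne_zero 2 (N1_pos _ x).ne'),
  (contDiff_const.mul smooth_c0.2).div ((smooth_N1 q).pow 2)
    (fun x => pow_ne_zero 2 (N1_pos _ x).ne')⟩

lemma smooth_cB (q : Bool) :
    ContDiff ℝ ∞ (fun x => (cB q x).re) ∧ ContDiff ℝ ∞ (fun x => (cB q x).im) :=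
  ⟨((contDiff_const.mul smooth_c0.1).div ((smooth_N2 q).pow 2)
    (fun x => pow_ne_zero 2 (N2_pos _ x).ne')).neg,
  ((contDiff_const.mul smooth_c0.2).div ((smooth_N2 q).pow 2)
    (fun x => pow_ne_zero 2 (N2_pos _ x).ne')).neg⟩

lemma smooth_reB {p q : V → ℝ} {c : V → ℂ} (hp : ContDiff ℝ ∞ p) (hq : ContDiff ℝ ∞ q)
    (hc : ContDiff ℝ ∞ (fun x => (c x).re) ∧ ContDiff ℝ ∞ (fun x => (c x).im)) (u v : V) :
    ContDiff ℝ ∞ (fun x => reB (p x) (q x) (c x) u v) := by
  simp only [reB_real]
  exact (((hp.mul contDiff_const).add (hq.mul contDiff_const)).add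
    (hc.1.mul contDiff_const)).add (hc.2.mul contDiff_const)

lemma smooth_imB {p q : V → ℝ} {c : V → ℂ} (hp : ContDiff ℝ ∞ p) (hq : ContDiff ℝ ∞ q)
    (hc : ContDiff ℝ ∞ (fun x => (c x).re) ∧ ContDiff ℝ ∞ (fun x => (c x).im)) (u v : V) :
    ContDiff ℝ ∞ (fun x => imB (p x) (q x) (c x) u v) := by
  simp only [imB_real]
  exact (((hp.mul contDiff_const).add (hq.mul contDiff_const)).add
    (hc.1.mul contDiff_const)).add (hc.2.mul contDiff_const)

/-! ### closedness -/

lemma closed_of_potential (η : V → LinearMap.BilinForm ℝ V) (A : V → V → ℝ)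
    (hA : ∀ v, ContDiff ℝ ∞ (fun x => A x v))
    (h : ∀ x u v, η x u v = fderiv ℝ (fun y => A y v) x u - fderiv ℝ (fun y => A y u) x v) :
    IsClosed2 η := by
  intro x u v w
  have hd : ∀ a, Differentiable ℝ (fderiv ℝ (fun y => A y a)) := fun a =>
    ((hA a).fderiv_right (m := ∞) (by simp)).differentiable (by simp)
  have hsymm : ∀ a u v, fderiv ℝ (fderiv ℝ (fun y => A y a)) x u v
      = fderiv ℝ (fderiv ℝ (fun y => A y a)) x v u := by
    intro a u v
    have h1 : IsSymmSndFDerivAt ℝ (fun y => A y a) x := by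
      apply (contDiff_infty.mp (hA a) 2).contDiffAt.isSymmSndFDerivAt
      simp
    exact h1 u v
  have key : ∀ a b c : V, fderiv ℝ (fun y => η y b c) x a
      = fderiv ℝ (fderiv ℝ (fun y => A y c)) x a b - fderiv ℝ (fderiv ℝ (fun y => A y b)) x a c := by
    intro a b c
    have h1 : (fun y => η y b c) = fun y => fderiv ℝ (fun z => A z c) y b
        - fderiv ℝ (fun z => A z b) y c := by
      funext y; exact h y b c
    rw [h1]
    have h2 : HasFDerivAt (fun y => fderiv ℝ (fun z => A z c) y b)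
        ((fderiv ℝ (fderiv ℝ (fun z => A z c)) x).flip b) x := by
      have := ((hd c) x).hasFDerivAt.clm_apply (hasFDerivAt_const b x)
      simpa using this
    have h3 : HasFDerivAt (fun y => fderiv ℝ (fun z => A z b) y c)
        ((fderiv ℝ (fderiv ℝ (fun z => A z b)) x).flip c) x := by
      have := ((hd b) x).hasFDerivAt.clm_apply (hasFDerivAt_const c x)
      simpa using this
    exact congrArg (fun L => L a) (h2.sub h3).fderiv
  rw [key, key, key, hsymm w u v, hsymm v u w, hsymm u v w]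
  ring

end Pool.Agent.R21.HF
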