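import Mathlib

/-!
# The blow-up of the complex projective plane at a point, tensors on it, the Hodge star

`M` is the blow-up of `CP²` at the point `[1 : 0 : 0]`, that is, the surface
`{([x₀ : x₁ : x₂], [y₀ : y₁]) : x₁ y₁ = x₂ y₀}` in `CP² × CP¹`; it is diffeomorphic to the connected
sum of `CP²` and `CP²` with the opposite orientation. Four charts cover `M`, each is a bijection of
`V = ℂ²` with its image.
-/

set_option autoImplicit false

open Complex Matrix Filter Topology
open scoped ComplexConjugate ContDiff LinearAlgebra.Projectivization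

namespace Pool.Agent.R21.HF

/-- the coordinate space of the charts: `ℂ²`, as a real vector space -/
abbrev V : Type := ℂ × ℂ

/-- the labels of the four charts -/
abbrev Ch : Type := Bool × Bool

/-- homogeneous coordinates of the point of `CP¹` with affine coordinate `w` -/
def line (p : Bool) (w : ℂ) : Fin 2 → ℂ := if p then ![w, 1] else ![1, w]

/-- homogeneous coordinates of the point of `CP²` with the coordinates `x = (w, ζ)` in the chart `i`:
`[1 : ζ y₀ : ζ y₁]` or `[ζ : y₀ : y₁]`, where `y = line i.1 w` -/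
def plane (i : Ch) (x : V) : Fin 3 → ℂ :=
  if i.2 then ![x.2, line i.1 x.1 0, line i.1 x.1 1]
  else ![1, x.2 * line i.1 x.1 0, x.2 * line i.1 x.1 1]

lemma line_ne (p : Bool) (w : ℂ) : line p w ≠ 0 := by
  intro h
  cases p
  · have := congrFun h 0
    simp [line] at this
  · have := congrFun h 1
    simp [line] at this

lemma plane_ne (i : Ch) (x : V) : plane i x ≠ 0 := by
  intro h
  rcases i with ⟨_ | _, _ | _⟩
  · have := congrFun h 0
    simp [plane] at this
  · have := congrFun h 1
    simp [plane, line] at this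
  · have := congrFun h 0
    simp [plane] at this
  · have := congrFun h 2
    simp [plane, line] at this

/-- the blow-up of `CP²` at the point `[1 : 0 : 0]`, as a subset of `CP² × CP¹` -/
def blowUp : Set (ℙ ℂ (Fin 3 → ℂ) × ℙ ℂ (Fin 2 → ℂ)) :=
  {z | z.1.rep 1 * z.2.rep 1 = z.1.rep 2 * z.2.rep 0}

/-- the (inverses of the) charts of the blow-up -/
noncomputable def chart (i : Ch) (x : V) : ℙ ℂ (Fin 3 → ℂ) × ℙ ℂ (Fin 2 → ℂ) :=
  (Projectivization.mk ℂ (plane i x) (plane_ne i x),
    Projectivization.mk ℂ (line i.1 x.1) (line_ne i.1 x.1))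

/-- A smooth field of bilinear forms on `M`: in each chart a smooth family of bilinear forms on
`ℂ² = ℝ⁴`, and the change of charts `T` from the chart `i` to the chart `j` pulls the one in the chart
`j` back to the one in the chart `i`. -/
structure Tensor where
  /-- the bilinear form in the chart `i` at the point with coordinates `x` -/
  c : Ch → V → LinearMap.BilinForm ℝ V
  smooth : ∀ i u v, ContDiff ℝ ∞ (fun x => c i x u v)
  compat : ∀ (i j : Ch) (x : V) (T : V → V), (∀ᶠ y in 𝓝 x, chart j (T y) = chart i y) →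
    ∀ u v, c j (T x) (fderiv ℝ T x u) (fderiv ℝ T x v) = c i x u v

/-- 2-forms -/
def Tensor.IsForm (θ : Tensor) : Prop := ∀ i x u, θ.c i x u u = 0

/-- Riemannian metrics -/
def Tensor.IsMetric (g : Tensor) : Prop :=
  ∀ i x, (∀ u v, g.c i x u v = g.c i x v u) ∧ ∀ u, u ≠ 0 → 0 < g.c i x u u

/-- the exterior derivative of a 2-form on `ℝ⁴` vanishes -/
def IsClosed2 (η : V → LinearMap.BilinForm ℝ V) : Prop :=
  ∀ x u v w : V, fderiv ℝ (fun y => η y v w) x u + fderiv ℝ (fun y => η y w u) x v
    + fderiv ℝ (fun y => η y u v) x w = 0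

/-- closed 2-forms -/
def Tensor.IsClosed (θ : Tensor) : Prop := ∀ i, IsClosed2 (θ.c i)

/-- the standard real basis of `ℂ²` -/
noncomputable def E : Fin 4 → V := ![(1, 0), (I, 0), (0, 1), (0, I)]

/-- the coefficients of a bilinear form in the standard basis -/
noncomputable def Gram (B : LinearMap.BilinForm ℝ V) : Matrix (Fin 4) (Fin 4) ℝ :=
  Matrix.of fun a b => B (E a) (E b)

/-- `η` is the Hodge star of the 2-form `θ` for the inner product `g` and the orientation of `ℂ²`:
`η_{cd} = √(det g) θ^{ab}` for every even permutation `(a, b, c, d)` of the indices, where the indices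
of `θ` are raised with the inverse matrix of `g` -/
def IsStar (g θ η : LinearMap.BilinForm ℝ V) : Prop :=
  ∀ σ : Equiv.Perm (Fin 4), Equiv.Perm.sign σ = 1 →
    η (E (σ 2)) (E (σ 3)) =
      Real.sqrt (Gram g).det * ((Gram g)⁻¹ * Gram θ * ((Gram g)⁻¹)ᵀ) (σ 0) (σ 1)

/-- the 2-form `θ` is harmonic for the metric `g`: `dθ = 0` and `d⋆θ = 0` -/
def Tensor.IsHarmonic (g θ : Tensor) : Prop :=
  θ.IsClosed ∧ ∃ η : Tensor, η.IsForm ∧ (∀ i x, IsStar (g.c i x) (θ.c i x) (η.c i x)) ∧ η.IsClosed

/-- intrinsically harmonic 2-forms -/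
def Tensor.IsIntrinsicallyHarmonic (θ : Tensor) : Prop :=
  ∃ g : Tensor, g.IsMetric ∧ g.IsHarmonic θ

/-- the rank of a bilinear form -/
noncomputable def rk (B : LinearMap.BilinForm ℝ V) : ℕ := Module.finrank ℝ (LinearMap.range B)

end Pool.Agent.R21.HF
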