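import Pool.Agent.R21.HF.Chart

/-!
# Derivatives of the changes of charts, compatibility
-/

set_option autoImplicit false

open Complex Matrix Filter Topology
open scoped ComplexConjugate ContDiff LinearAlgebra.Projectivization

namespace Pool.Agent.R21.HF

lemma hasFDerivAt_bas (b q : Bool) (x : V) (hx : b = true → x.1 ≠ 0) :
    ∃ L : V →L[ℝ] V, HasFDerivAt (bas b q) L x ∧ ∀ u, L u = dbas b q x u := by
  cases b
  · exact ⟨ContinuousLinearMap.id ℝ V, hasFDerivAt_id x, fun u => rfl⟩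
  have hx0 : x.1 ≠ 0 := hx rfl
  have h1 : HasFDerivAt (fun y : V => y.1) (ContinuousLinearMap.fst ℝ ℂ ℂ) x := hasFDerivAt_fst
  have h2 : HasFDerivAt (fun y : V => y.2) (ContinuousLinearMap.snd ℝ ℂ ℂ) x := hasFDerivAt_snd
  have h3 : HasFDerivAt (fun y : V => (y.1)⁻¹)
      ((-ContinuousLinearMap.mulLeftRight ℝ ℂ x.1⁻¹ x.1⁻¹).comp
        (ContinuousLinearMap.fst ℝ ℂ ℂ)) x :=
    (hasFDerivAt_inv' hx0).comp x h1
  cases q
  · have h4 := h1.mul h2
    have h5 := h3.prodMk h4
    refine ⟨_, h5, ?_⟩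
    intro u
    simp [dbas]
    refine ⟨?_, ?_⟩
    · field_simp
    · ring
  · have h4 := h2.mul h3
    have h5 := h3.prodMk h4
    refine ⟨_, h5, ?_⟩
    intro u
    simp [dbas]
    refine ⟨?_, ?_⟩
    · field_simp
    · field_simp
      ring

lemma hasFDerivAt_fib (f : Bool) (x : V) (hx : f = true → x.2 ≠ 0) :
    ∃ L : V →L[ℝ] V, HasFDerivAt (fib f) L x ∧ ∀ u, L u = dfib f x u := by
  cases f
  · exact ⟨ContinuousLinearMap.id ℝ V, hasFDerivAt_id x, fun u => rfl⟩
  have hx0 : x.2 ≠ 0 := hx rfl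
  have h1 : HasFDerivAt (fun y : V => y.1) (ContinuousLinearMap.fst ℝ ℂ ℂ) x := hasFDerivAt_fst
  have h2 : HasFDerivAt (fun y : V => y.2) (ContinuousLinearMap.snd ℝ ℂ ℂ) x := hasFDerivAt_snd
  have h3 : HasFDerivAt (fun y : V => (y.2)⁻¹)
      ((-ContinuousLinearMap.mulLeftRight ℝ ℂ x.2⁻¹ x.2⁻¹).comp
        (ContinuousLinearMap.snd ℝ ℂ ℂ)) x :=
    (hasFDerivAt_inv' hx0).comp x h2
  have h5 := h1.prodMk h3
  refine ⟨_, h5, ?_⟩
  intro u
  simp [dfib]
  field_simp

lemma Hh_add (p q : ℝ) (c : ℂ) (p' q' : ℝ) (c' : ℂ) (t : ℝ) (u v : V) :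
    Hh (p + t * p') (q + t * q') (c + t * c') u v = Hh p q c u v + t * Hh p' q' c' u v := by
  simp only [Hh, map_add, map_mul, Complex.conj_ofReal]
  push_cast
  ring

/-- the coefficients of `α + t β` -/
noncomputable def PP (t : ℝ) (q : Bool) (x : V) : ℝ := pA q x + t * pB q x
/-- the coefficients of `α + t β` -/
noncomputable def QQ (t : ℝ) (q : Bool) (x : V) : ℝ := qA q x + t * qB q x
/-- the coefficients of `α + t β` -/
noncomputable def CC (t : ℝ) (q : Bool) (x : V) : ℂ := cA q x + t * cB q x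

lemma Hh_bas (t : ℝ) (b q : Bool) (x u v : V) (hx : b = true → x.1 ≠ 0) :
    Hh (PP t q (bas b q x)) (QQ t q (bas b q x)) (CC t q (bas b q x))
      (dbas b q x u) (dbas b q x v) = Hh (PP t q x) (QQ t q x) (CC t q x) u v := by
  cases b
  · rfl
  · simp only [PP, QQ, CC]
    rw [Hh_add, Hh_add, Hh_bas_A q x u v (hx rfl), Hh_bas_B q x u v (hx rfl)]

lemma Hh_fib (t : ℝ) (f q : Bool) (x u v : V) (hx : f = true → x.2 ≠ 0) :
    Hh (PP t (f != q) (fib f x)) (QQ t (f != q) (fib f x)) (CC t (f != q) (fib f x))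
      (dfib f x u) (dfib f x v) = Hh (PP t q x) (QQ t q x) (CC t q x) u v := by
  cases f
  · cases q <;> rfl
  · have : (true != q) = !q := by cases q <;> rfl
    rw [this]
    simp only [PP, QQ, CC]
    rw [Hh_add, Hh_add, Hh_fib_A q x u v (hx rfl), Hh_fib_B q x u v (hx rfl)]

lemma compat_Hh (t : ℝ) (i j : Ch) (x : V) (T : V → V)
    (hT : ∀ᶠ y in 𝓝 x, chart j (T y) = chart i y) (u v : V) :
    Hh (PP t j.2 (T x)) (QQ t j.2 (T x)) (CC t j.2 (T x)) (fderiv ℝ T x u) (fderiv ℝ T x v)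
      = Hh (PP t i.2 x) (QQ t i.2 x) (CC t i.2 x) u v := by
  have h0 := chart_eq i j x (T x) hT.self_of_nhds
  obtain ⟨h1, h2, h3⟩ := h0
  have hb : (i.1 != j.1) = true → x.1 ≠ 0 := fun h => h1 (by simpa using h)
  have hf : (i.2 != j.2) = true → (bas (i.1 != j.1) i.2 x).2 ≠ 0 := by
    intro h
    have h4 : x.2 ≠ 0 := h2 (by simpa using h)
    unfold bas
    by_cases hb' : (i.1 != j.1) = true
    · rw [if_pos hb']
      simp only
      split_ifs
      · exact div_ne_zero h4 (hb hb')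
      · exact mul_ne_zero (hb hb') h4
    · rw [if_neg hb']
      exact h4
  obtain ⟨L1, hL1, e1⟩ := hasFDerivAt_bas (i.1 != j.1) i.2 x hb
  obtain ⟨L2, hL2, e2⟩ := hasFDerivAt_fib (i.2 != j.2) (bas (i.1 != j.1) i.2 x) hf
  have h5 : T =ᶠ[𝓝 x] (fib (i.2 != j.2)) ∘ (bas (i.1 != j.1) i.2) := by
    filter_upwards [hT] with y hy
    exact (chart_eq i j y (T y) hy).2.2
  have h6 : fderiv ℝ T x = L2.comp L1 := by
    rw [h5.fderiv_eq]
    exact (hL2.comp x hL1).fderiv
  have h7 : ∀ u, fderiv ℝ T x u = dfib (i.2 != j.2) (bas (i.1 != j.1) i.2 x)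
      (dbas (i.1 != j.1) i.2 x u) := by
    intro u
    rw [h6, ContinuousLinearMap.comp_apply, e1, e2]
  have h8 : j.2 = ((i.2 != j.2) != i.2) := by
    rcases i with ⟨_ | _, _ | _⟩ <;> rcases j with ⟨_ | _, _ | _⟩ <;> rfl
  rw [h7, h7, h3, ← Hh_bas t (i.1 != j.1) i.2 x u v hb,
    ← Hh_fib t (i.2 != j.2) i.2 _ _ _ hf, ← h8]

/-! ### the charts cover the blow-up -/

lemma chart_injective (i : Ch) : Function.Injective (chart i) := by
  intro x y h
  have := (chart_eq i i y x h).2.2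
  simpa [fib, bas] using this

lemma chart_mem (i : Ch) (x : V) : chart i x ∈ blowUp := by
  obtain ⟨a, ha⟩ := Projectivization.exists_smul_eq_mk_rep ℂ (plane i x) (plane_ne i x)
  obtain ⟨b, hb⟩ := Projectivization.exists_smul_eq_mk_rep ℂ (line i.1 x.1) (line_ne i.1 x.1)
  show (Projectivization.mk ℂ (plane i x) (plane_ne i x)).rep 1
    * (Projectivization.mk ℂ (line i.1 x.1) (line_ne i.1 x.1)).rep 1
    = (Projectivization.mk ℂ (plane i x) (plane_ne i x)).rep 2
    * (Projectivization.mk ℂ (line i.1 x.1) (line_ne i.1 x.1)).rep 0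
  rw [← ha, ← hb]
  rcases i with ⟨_ | _, _ | _⟩ <;> simp [plane, line, Units.smul_def] <;> ring

lemma mem_chart (z : ℙ ℂ (Fin 3 → ℂ) × ℙ ℂ (Fin 2 → ℂ)) (hz : z ∈ blowUp) :
    ∃ i x, chart i x = z := by
  obtain ⟨z1, z2⟩ := z
  have hz' : z1.rep 1 * z2.rep 1 = z1.rep 2 * z2.rep 0 := hz
  have n1 := z1.rep_nonzero
  have n2 := z2.rep_nonzero
  have key : ∀ (i : Ch) (x : V) (a b : ℂ), a • z1.rep = plane i x → b • z2.rep = line i.1 x.1 →
      chart i x = (z1, z2) := by
    intro i x a b ha hb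
    unfold chart
    apply Prod.ext
    · show Projectivization.mk ℂ (plane i x) (plane_ne i x) = z1
      rw [← z1.mk_rep, Projectivization.mk_eq_mk_iff']
      exact ⟨a, ha⟩
    · show Projectivization.mk ℂ (line i.1 x.1) (line_ne i.1 x.1) = z2
      rw [← z2.mk_rep, Projectivization.mk_eq_mk_iff']
      exact ⟨b, hb⟩
  generalize z1.rep = X at *
  generalize z2.rep = Y at *
  by_cases hY : Y 0 = 0
  · -- `Y 1 ≠ 0`
    have hY1 : Y 1 ≠ 0 := by
      intro h
      apply n2
      ext k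
      fin_cases k
      · exact hY
      · exact h
    have hX1 : X 1 = 0 := by
      rw [hY, mul_zero] at hz'
      exact (mul_eq_zero.mp hz').resolve_right hY1
    by_cases hX : X 0 = 0
    · have hX2 : X 2 ≠ 0 := by
        intro h
        apply n1
        ext k
        fin_cases k
        · exact hX
        · exact hX1
        · exact h
      refine ⟨(true, true), (0, 0), key _ _ (X 2)⁻¹ (Y 1)⁻¹ ?_ ?_⟩
      · ext k; fin_cases k <;> simp [plane, line, hX, hX1, hX2]
      · ext k; fin_cases k <;> simp [line, hY, hY1]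
    · refine ⟨(true, false), (0, X 2 / X 0), key _ _ (X 0)⁻¹ (Y 1)⁻¹ ?_ ?_⟩
      · ext k; fin_cases k <;> simp [plane, line, hX, hX1]
        field_simp
      · ext k; fin_cases k <;> simp [line, hY, hY1]
  · by_cases hX : X 0 = 0
    · have hX1 : X 1 ≠ 0 := by
        intro h
        rw [h, zero_mul] at hz'
        have hX2 : X 2 = 0 := (mul_eq_zero.mp hz'.symm).resolve_right hY
        apply n1
        ext k
        fin_cases k
        · exact hX
        · exact h
        · exact hX2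
      refine ⟨(false, true), (Y 1 / Y 0, 0), key _ _ (X 1)⁻¹ (Y 0)⁻¹ ?_ ?_⟩
      · ext k; fin_cases k <;> simp [plane, line, hX, hX1]
        field_simp
        exact hz'.symm
      · ext k; fin_cases k <;> simp [line, hY]
        field_simp
    · refine ⟨(false, false), (Y 1 / Y 0, X 1 / X 0), key _ _ (X 0)⁻¹ (Y 0)⁻¹ ?_ ?_⟩
      · ext k; fin_cases k <;> simp [plane, line, hX]
        · field_simp
        · field_simp
          exact hz'.symm
      · ext k; fin_cases k <;> simp [line, hY]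
        field_simp

lemma iUnion_chart : ⋃ i, Set.range (chart i) = blowUp := by
  ext z
  simp only [Set.mem_iUnion, Set.mem_range]
  constructor
  · rintro ⟨i, x, rfl⟩
    exact chart_mem i x
  · intro hz
    exact mem_chart z hz

end Pool.Agent.R21.HF
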