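import Pool.Agent.R21.HF.Defs

/-!
# Hermitian forms on `ℂ²`, the real forms they give, the Hodge star
-/

set_option autoImplicit false

open Complex Matrix
open scoped ComplexConjugate

namespace Pool.Agent.R21.HF

/-- a Hermitian form -/
noncomputable def Hh (p q : ℝ) (c : ℂ) (u v : V) : ℂ :=
  p * (u.1 * conj v.1) + q * (u.2 * conj v.2) + c * (u.1 * conj v.2) + conj c * (u.2 * conj v.1)

/-- the real part -/
noncomputable def reB (p q : ℝ) (c : ℂ) : LinearMap.BilinForm ℝ V :=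
  LinearMap.mk₂ ℝ (fun u v => (Hh p q c u v).re)
    (by intro u u' v; simp only [Hh, Prod.fst_add, Prod.snd_add, ← Complex.add_re]; congr 1; ring)
    (by
      intro r u v
      simp only [Hh, Prod.smul_fst, Prod.smul_snd, Complex.real_smul, smul_eq_mul,
        ← Complex.re_ofReal_mul]
      congr 1; ring)
    (by
      intro u v v'
      simp only [Hh, Prod.fst_add, Prod.snd_add, map_add, ← Complex.add_re]; congr 1; ring)
    (by
      intro r u v
      simp only [Hh, Prod.smul_fst, Prod.smul_snd, Complex.real_smul, smul_eq_mul, map_mul,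
        Complex.conj_ofReal, ← Complex.re_ofReal_mul]
      congr 1; ring)

/-- the imaginary part, with exchanged arguments -/
noncomputable def imB (p q : ℝ) (c : ℂ) : LinearMap.BilinForm ℝ V :=
  LinearMap.mk₂ ℝ (fun u v => (Hh p q c v u).im)
    (by
      intro u u' v
      simp only [Hh, Prod.fst_add, Prod.snd_add, map_add, ← Complex.add_im]; congr 1; ring)
    (by
      intro r u v
      simp only [Hh, Prod.smul_fst, Prod.smul_snd, Complex.real_smul, smul_eq_mul, map_mul,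
        Complex.conj_ofReal, ← Complex.im_ofReal_mul]
      congr 1; ring)
    (by
      intro u v v'
      simp only [Hh, Prod.fst_add, Prod.snd_add, ← Complex.add_im]; congr 1; ring)
    (by
      intro r u v
      simp only [Hh, Prod.smul_fst, Prod.smul_snd, Complex.real_smul, smul_eq_mul,
        ← Complex.im_ofReal_mul]
      congr 1; ring)

lemma reB_apply (p q : ℝ) (c : ℂ) (u v : V) : reB p q c u v = (Hh p q c u v).re := rfl
lemma imB_apply (p q : ℝ) (c : ℂ) (u v : V) : imB p q c u v = (Hh p q c v u).im := rfl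

/-- real expression of `reB` -/
lemma reB_real (p q : ℝ) (c : ℂ) (u v : V) : reB p q c u v
    = p * (u.1.re * v.1.re + u.1.im * v.1.im) + q * (u.2.re * v.2.re + u.2.im * v.2.im)
      + c.re * (u.1.re * v.2.re + u.1.im * v.2.im + u.2.re * v.1.re + u.2.im * v.1.im)
      + c.im * (u.1.re * v.2.im - u.1.im * v.2.re + u.2.im * v.1.re - u.2.re * v.1.im) := by
  rw [reB_apply, Hh]
  simp only [Complex.add_re, Complex.mul_re, Complex.mul_im, Complex.conj_re, Complex.conj_im,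
    Complex.ofReal_re, Complex.ofReal_im]
  ring

/-- real expression of `imB` -/
lemma imB_real (p q : ℝ) (c : ℂ) (u v : V) : imB p q c u v
    = p * (u.1.re * v.1.im - u.1.im * v.1.re) + q * (u.2.re * v.2.im - u.2.im * v.2.re)
      + c.re * (v.1.im * u.2.re - v.1.re * u.2.im + v.2.im * u.1.re - v.2.re * u.1.im)
      + c.im * (v.1.re * u.2.re + v.1.im * u.2.im - v.2.re * u.1.re - v.2.im * u.1.im) := by
  rw [imB_apply, Hh]
  simp only [Complex.add_im, Complex.mul_re, Complex.mul_im, Complex.conj_re, Complex.conj_im,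
    Complex.ofReal_re, Complex.ofReal_im]
  ring

lemma Gram_reB (p q : ℝ) (c : ℂ) : Gram (reB p q c) =
    !![p, 0, c.re, c.im; 0, p, -c.im, c.re; c.re, -c.im, q, 0; c.im, c.re, 0, q] := by
  ext a b
  fin_cases a <;> fin_cases b <;> simp [Gram, E, reB_real]

lemma Gram_imB (p q : ℝ) (c : ℂ) : Gram (imB p q c) =
    !![0, p, -c.im, c.re; -p, 0, -c.re, -c.im; c.im, c.re, 0, q; -c.re, c.im, -q, 0] := by
  ext a b
  fin_cases a <;> fin_cases b <;> simp [Gram, E, imB_real]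

lemma det_reB (p q : ℝ) (c : ℂ) :
    (Gram (reB p q c)).det = (p * q - (c.re ^ 2 + c.im ^ 2)) ^ 2 := by
  rw [Gram_reB]
  simp [Matrix.det_succ_row_zero, Fin.sum_univ_succ, Fin.succAbove]
  ring

lemma inv_reB (p q : ℝ) (c : ℂ) (h : 0 < p * q - (c.re ^ 2 + c.im ^ 2)) :
    (Gram (reB p q c))⁻¹ = (p * q - (c.re ^ 2 + c.im ^ 2))⁻¹ •
      !![q, 0, -c.re, -c.im; 0, q, c.im, -c.re; -c.re, c.im, p, 0; -c.im, -c.re, 0, p] := by
  apply Matrix.inv_eq_right_inv
  rw [Gram_reB, Matrix.mul_smul]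
  have h' := h.ne'
  have key : (!![p, 0, c.re, c.im; 0, p, -c.im, c.re; c.re, -c.im, q, 0; c.im, c.re, 0, q] *
      !![q, 0, -c.re, -c.im; 0, q, c.im, -c.re; -c.re, c.im, p, 0; -c.im, -c.re, 0, p] :
        Matrix (Fin 4) (Fin 4) ℝ) = (p * q - (c.re ^ 2 + c.im ^ 2)) • 1 := by
    ext a b
    fin_cases a <;> fin_cases b <;>
      simp [Matrix.mul_apply, Fin.sum_univ_four] <;> ring
  rw [key, smul_smul, inv_mul_cancel₀ h', one_smul]

lemma even_perm : ∀ σ : Equiv.Perm (Fin 4), Equiv.Perm.sign σ = 1 →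
    (σ 0, σ 1, σ 2, σ 3) ∈ ([(0, 1, 2, 3), (0, 2, 3, 1), (0, 3, 1, 2), (1, 0, 3, 2), (1, 2, 0, 3),
      (1, 3, 2, 0), (2, 0, 1, 3), (2, 1, 3, 0), (2, 3, 0, 1), (3, 0, 2, 1), (3, 1, 0, 2),
      (3, 2, 1, 0)] : List (Fin 4 × Fin 4 × Fin 4 × Fin 4)) := by
  decide

/-- the adjugate-like matrix of `reB` -/
noncomputable def Mx (p q : ℝ) (c : ℂ) : Matrix (Fin 4) (Fin 4) ℝ :=
  !![q, 0, -c.re, -c.im; 0, q, c.im, -c.re; -c.re, c.im, p, 0; -c.im, -c.re, 0, p]

lemma star_gen (p q : ℝ) (c : ℂ) (p' q' : ℝ) (c' : ℂ) (x : Fin 4 × Fin 4 × Fin 4 × Fin 4)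
    (hx : x ∈ ([(0, 1, 2, 3), (0, 2, 3, 1), (0, 3, 1, 2), (1, 0, 3, 2), (1, 2, 0, 3),
      (1, 3, 2, 0), (2, 0, 1, 3), (2, 1, 3, 0), (2, 3, 0, 1), (3, 0, 2, 1), (3, 1, 0, 2),
      (3, 2, 1, 0)] : List (Fin 4 × Fin 4 × Fin 4 × Fin 4))) :
    (Mx p q c * Gram (imB p' q' c') * (Mx p q c)ᵀ) x.1 x.2.1 =
      (p * q' + q * p' - 2 * (c.re * c'.re + c.im * c'.im)) * Gram (imB p q c) x.2.2.1 x.2.2.2
        - (p * q - (c.re ^ 2 + c.im ^ 2)) * Gram (imB p' q' c') x.2.2.1 x.2.2.2 := by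
  rw [Gram_imB, Gram_imB]
  simp only [List.mem_cons, List.not_mem_nil, or_false] at hx
  rcases hx with rfl | rfl | rfl | rfl | rfl | rfl | rfl | rfl | rfl | rfl | rfl | rfl <;>
    simp [Mx, Matrix.mul_apply, Fin.sum_univ_four] <;> ring

lemma imB_add (p q : ℝ) (c : ℂ) (p' q' : ℝ) (c' : ℂ) (t : ℝ) :
    imB (p + t * p') (q + t * q') (c + t * c') = imB p q c + t • imB p' q' c' := by
  ext u v <;>
    simp [imB_real] <;> ring

lemma Gram_imB_add (p q : ℝ) (c : ℂ) (p' q' : ℝ) (c' : ℂ) (t : ℝ) :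
    Gram (imB (p + t * p') (q + t * q') (c + t * c'))
      = Gram (imB p q c) + t • Gram (imB p' q' c') := by
  rw [imB_add]
  ext a b
  simp [Gram]

/-- the star operator on the forms `h + t k` with `k` primitive -/
lemma isStar (p q : ℝ) (c : ℂ) (p' q' : ℝ) (c' : ℂ) (t : ℝ)
    (h : 0 < p * q - (c.re ^ 2 + c.im ^ 2))
    (htr : p * q' + q * p' - 2 * (c.re * c'.re + c.im * c'.im) = 0) :
    IsStar (reB p q c) (imB (p + t * p') (q + t * q') (c + t * c'))
      (imB (p + -t * p') (q + -t * q') (c + ((-t : ℝ) : ℂ) * c')) := by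
  intro σ hσ
  have hx := even_perm σ hσ
  have e1 := star_gen p q c p q c _ hx
  have e2 := star_gen p q c p' q' c' _ hx
  rw [htr, zero_mul, zero_sub] at e2
  simp only at e1 e2
  set Δ := p * q - (c.re ^ 2 + c.im ^ 2) with hΔ
  have h' := h.ne'
  have e3 : imB (p + -t * p') (q + -t * q') (c + ((-t : ℝ) : ℂ) * c') (E (σ 2)) (E (σ 3))
      = Gram (imB (p + -t * p') (q + -t * q') (c + ((-t : ℝ) : ℂ) * c')) (σ 2) (σ 3) := rfl
  rw [e3, Gram_imB_add, Gram_imB_add, inv_reB p q c h, det_reB, ← hΔ, Real.sqrt_sq h.le]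
  have e4 : (Δ⁻¹ • Mx p q c * (Gram (imB p q c) + t • Gram (imB p' q' c')) *
      (Δ⁻¹ • Mx p q c)ᵀ) (σ 0) (σ 1)
      = Δ⁻¹ * Δ⁻¹ * ((Mx p q c * Gram (imB p q c) * (Mx p q c)ᵀ) (σ 0) (σ 1)
        + t * (Mx p q c * Gram (imB p' q' c') * (Mx p q c)ᵀ) (σ 0) (σ 1)) := by
    rw [Matrix.transpose_smul, Matrix.smul_mul, Matrix.smul_mul, Matrix.mul_smul, smul_smul,
      Matrix.smul_apply, Matrix.mul_add, Matrix.add_mul, Matrix.add_apply, Matrix.mul_smul,
      Matrix.smul_mul, Matrix.smul_apply, smul_eq_mul, smul_eq_mul]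
  have e5 : Mx p q c = !![q, 0, -c.re, -c.im; 0, q, c.im, -c.re; -c.re, c.im, p, 0;
    -c.im, -c.re, 0, p] := rfl
  rw [← e5, e4, e1, e2, Matrix.add_apply, Matrix.smul_apply, smul_eq_mul]
  have e6 : p * q + q * p - 2 * (c.re * c.re + c.im * c.im) = 2 * Δ := by rw [hΔ]; ring
  rw [e6]
  field_simp
  ring

/-- alternating nonzero forms have rank at least two -/
lemma two_le_rk (B : LinearMap.BilinForm ℝ V) (hB : ∀ u, B u u = 0) (u v : V) (huv : B u v ≠ 0) :
    2 ≤ rk B := by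
  have hvu : B v u ≠ 0 := by
    have h1 : B (u + v) (u + v) = 0 := hB _
    simp only [map_add, LinearMap.add_apply, hB, zero_add, add_zero] at h1
    intro h2
    rw [h2] at h1
    apply huv
    linarith
  let f : (V →ₗ[ℝ] ℝ) →ₗ[ℝ] ℝ × ℝ := (LinearMap.applyₗ u).prod (LinearMap.applyₗ v)
  have hf : ∀ L, f L = (L u, L v) := fun L => rfl
  have htop : Submodule.map f (LinearMap.range B) = ⊤ := by
    rw [eq_top_iff]
    rintro ⟨x, y⟩ -
    refine ⟨(y / B u v) • B u + (x / B v u) • B v, ?_, ?_⟩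
    · exact Submodule.add_mem _ (Submodule.smul_mem _ _ (LinearMap.mem_range_self B u))
        (Submodule.smul_mem _ _ (LinearMap.mem_range_self B v))
    · rw [hf]
      simp [hB, div_mul_cancel₀, huv, hvu]
  have h1 := Submodule.finrank_map_le f (LinearMap.range B)
  rw [htop, finrank_top, Module.finrank_prod, Module.finrank_self] at h1
  exact h1

lemma imB_alt (p q : ℝ) (c : ℂ) (u : V) : imB p q c u u = 0 := by
  rw [imB_real]; ring

lemma two_le_rk_imB (p q : ℝ) (c : ℂ) (h : p ≠ 0 ∨ q ≠ 0) : 2 ≤ rk (imB p q c) := by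
  rcases h with h | h
  · apply two_le_rk _ (imB_alt p q c) (1, 0) (I, 0)
    rw [imB_real]; simpa using h
  · apply two_le_rk _ (imB_alt p q c) (0, 1) (0, I)
    rw [imB_real]; simpa using h

lemma finrank_V : Module.finrank ℝ V = 4 := by
  rw [Module.finrank_prod, Complex.finrank_real_complex]

lemma rk_imB_four (p q : ℝ) (c : ℂ) (h : p * q - (c.re ^ 2 + c.im ^ 2) ≠ 0) :
    rk (imB p q c) = 4 := by
  unfold rk
  rw [LinearMap.finrank_range_of_inj, finrank_V]
  rw [← LinearMap.ker_eq_bot, LinearMap.ker_eq_bot']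
  intro u hu
  have h1 : ∀ v, imB p q c u v = 0 := fun v => by rw [hu]; rfl
  have a1 := h1 (1, 0)
  have a2 := h1 (I, 0)
  have a3 := h1 (0, 1)
  have a4 := h1 (0, I)
  rw [imB_real] at a1 a2 a3 a4
  simp at a1 a2 a3 a4
  have b1 : (p * q - (c.re ^ 2 + c.im ^ 2)) * u.1.re = 0 := by
    linear_combination q * a2 - c.re * a4 + c.im * a3
  have b2 : (p * q - (c.re ^ 2 + c.im ^ 2)) * u.1.im = 0 := by
    linear_combination -q * a1 + c.re * a3 + c.im * a4
  have b3 : (p * q - (c.re ^ 2 + c.im ^ 2)) * u.2.re = 0 := by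
    linear_combination p * a4 - c.re * a2 - c.im * a1
  have b4 : (p * q - (c.re ^ 2 + c.im ^ 2)) * u.2.im = 0 := by
    linear_combination -p * a3 + c.re * a1 - c.im * a2
  have c1 := (mul_eq_zero.mp b1).resolve_left h
  have c2 := (mul_eq_zero.mp b2).resolve_left h
  have c3 := (mul_eq_zero.mp b3).resolve_left h
  have c4 := (mul_eq_zero.mp b4).resolve_left h
  exact Prod.ext (Complex.ext c1 c2) (Complex.ext c3 c4)

lemma rk_imB_two (p : ℝ) (hp : p ≠ 0) : rk (imB p 0 0) = 2 := by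
  apply le_antisymm _ (two_le_rk_imB p 0 0 (Or.inl hp))
  have h1 := LinearMap.finrank_range_add_finrank_ker (imB p 0 0)
  rw [finrank_V] at h1
  have h2 : LinearMap.range (LinearMap.inr ℝ ℂ ℂ) ≤ LinearMap.ker (imB p 0 0) := by
    rintro _ ⟨z, rfl⟩
    rw [LinearMap.mem_ker]
    ext v <;> simp [imB_real]
  have h3 := Submodule.finrank_mono h2
  rw [LinearMap.finrank_range_of_inj LinearMap.inr_injective, Complex.finrank_real_complex] at h3
  have h4 : rk (imB p 0 0) + Module.finrank ℝ (LinearMap.ker (imB p 0 0)) = 4 := h1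
  have h5 : 2 ≤ Module.finrank ℝ (LinearMap.ker (imB p 0 0)) := h3
  omega

/-- positivity -/
lemma reB_pos (p q : ℝ) (c : ℂ) (hp : 0 < p) (h : 0 < p * q - (c.re ^ 2 + c.im ^ 2)) (u : V)
    (hu : u ≠ 0) : 0 < reB p q c u u := by
  have h1 : p * reB p q c u u
      = (p * u.1.re + c.re * u.2.re + c.im * u.2.im) ^ 2
        + (p * u.1.im + c.re * u.2.im - c.im * u.2.re) ^ 2
        + (p * q - (c.re ^ 2 + c.im ^ 2)) * (u.2.re ^ 2 + u.2.im ^ 2) := by
    rw [reB_real]; ring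
  have h2 : 0 < p * reB p q c u u := by
    rw [h1]
    by_cases h2 : u.2 = 0
    · have h3 : u.1 ≠ 0 := fun h3 => hu (Prod.ext h3 h2)
      rw [h2]
      simp only [Complex.zero_re, Complex.zero_im, mul_zero, add_zero, sub_zero]
      have h4 : 0 < u.1.re ^ 2 + u.1.im ^ 2 := by
        have := Complex.normSq_pos.mpr h3
        rw [Complex.normSq_apply] at this
        nlinarith
      have h5 : 0 < p ^ 2 := by positivity
      nlinarith
    · have h4 : 0 < u.2.re ^ 2 + u.2.im ^ 2 := by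
        have := Complex.normSq_pos.mpr h2
        rw [Complex.normSq_apply] at this
        nlinarith
      have h5 := mul_pos h h4
      positivity
  exact (mul_pos_iff_of_pos_left hp).mp h2

end Pool.Agent.R21.HF
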