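import Pool.Agent.R21.HF.Coef

/-!
# Potentials, closedness
-/

set_option autoImplicit false

open Complex Matrix
open scoped ComplexConjugate ContDiff

namespace Pool.Agent.R21.HF

/-- auxiliary -/
def R1 (x u : V) : ℝ := x.1.re * u.1.re + x.1.im * u.1.im
/-- auxiliary -/
def R2 (x u : V) : ℝ := x.2.re * u.2.re + x.2.im * u.2.im
/-- auxiliary -/
def E1 (x v : V) : ℝ := x.1.re * v.1.im - x.1.im * v.1.re
/-- auxiliary -/
def Z1 (x v : V) : ℝ := x.2.re * v.2.im - x.2.im * v.2.re
/-- auxiliary -/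
def XX (x u v : V) : ℝ := (x.1.re * x.2.re + x.1.im * x.2.im) *
    (v.1.im * u.2.re - v.1.re * u.2.im + v.2.im * u.1.re - v.2.re * u.1.im) +
  (x.1.re * x.2.im - x.1.im * x.2.re) *
    (v.1.re * u.2.re + v.1.im * u.2.im - v.2.re * u.1.re - v.2.im * u.1.im)

lemma k1 (x u v : V) : R1 x u * E1 x v - R1 x v * E1 x u = (mm x - 1) * E1 u v := by
  unfold R1 E1 mm; ring
lemma k2 (x u v : V) : R2 x u * Z1 x v - R2 x v * Z1 x u = ss x * Z1 u v := by
  unfold R2 Z1 ss; ring
lemma k3 (x u v : V) : R1 x u * Z1 x v - R1 x v * Z1 x u + (R2 x u * E1 x v - R2 x v * E1 x u)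
    = XX x u v := by
  unfold R1 R2 Z1 E1 XX; ring

lemma line_re (a b : ℝ) : HasDerivAt (fun t : ℝ => a + t * b) b 0 := by
  simpa using ((hasDerivAt_id (0 : ℝ)).mul_const b).const_add a

lemma hd_congr {f g : ℝ → ℝ} {a b : ℝ} (h : HasDerivAt f a 0) (hfg : ∀ t, g t = f t)
    (hab : b = a) : HasDerivAt g b 0 := by
  rw [hab, show g = f from funext hfg]; exact h

lemma line_mm (x u : V) : HasDerivAt (fun t : ℝ => mm (x + t • u)) (2 * R1 x u) 0 := by
  have ha := line_re x.1.re u.1.re
  have hb := line_re x.1.im u.1.im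
  have h := ((ha.pow 2).add (hb.pow 2)).const_add 1
  exact hd_congr h (fun t => by simp [mm]) (by simp [R1]; ring)

lemma line_ss (x u : V) : HasDerivAt (fun t : ℝ => ss (x + t • u)) (2 * R2 x u) 0 := by
  have ha := line_re x.2.re u.2.re
  have hb := line_re x.2.im u.2.im
  have h := (ha.pow 2).add (hb.pow 2)
  exact hd_congr h (fun t => by simp [ss]) (by simp [R2]; ring)

lemma line_E1 (x u v : V) : HasDerivAt (fun t : ℝ => E1 (x + t • u) v) (E1 u v) 0 := by
  have ha := (line_re x.1.re u.1.re).mul_const v.1.im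
  have hb := (line_re x.1.im u.1.im).mul_const v.1.re
  have h := ha.sub hb
  exact hd_congr h (fun t => by simp [E1]) rfl

lemma line_Z1 (x u v : V) : HasDerivAt (fun t : ℝ => Z1 (x + t • u) v) (Z1 u v) 0 := by
  have ha := (line_re x.2.re u.2.re).mul_const v.2.im
  have hb := (line_re x.2.im u.2.im).mul_const v.2.re
  have h := ha.sub hb
  exact hd_congr h (fun t => by simp [Z1]) rfl

lemma smooth_E1 (v : V) : ContDiff ℝ ∞ (fun x => E1 x v) := by
  unfold E1
  have h1 : ContDiff ℝ ∞ (fun x : V => x.1.re) := Complex.reCLM.contDiff.comp contDiff_fst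
  have h2 : ContDiff ℝ ∞ (fun x : V => x.1.im) := Complex.imCLM.contDiff.comp contDiff_fst
  exact (h1.mul contDiff_const).sub (h2.mul contDiff_const)

lemma smooth_Z1 (v : V) : ContDiff ℝ ∞ (fun x => Z1 x v) := by
  unfold Z1
  have h1 : ContDiff ℝ ∞ (fun x : V => x.2.re) := Complex.reCLM.contDiff.comp contDiff_snd
  have h2 : ContDiff ℝ ∞ (fun x : V => x.2.im) := Complex.imCLM.contDiff.comp contDiff_snd
  exact (h1.mul contDiff_const).sub (h2.mul contDiff_const)

lemma fderiv_of_line {F : V → ℝ} (hF : ContDiff ℝ ∞ F) {x u : V} {F' : ℝ}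
    (h : HasDerivAt (fun t : ℝ => F (x + t • u)) F' 0) : fderiv ℝ F x u = F' := by
  have h1 : HasLineDerivAt ℝ F F' x u := h
  rw [← (hF.differentiable (by simp) x).lineDeriv_eq_fderiv]
  exact h1.lineDeriv

/-- potentials of the Kähler form -/
noncomputable def AA : Bool → V → V → ℝ
  | false, x, v => (E1 x v / mm x + (Z1 x v * mm x + ss x * E1 x v) / N1 false x) / 2
  | true, x, v => (2 * (E1 x v / mm x) - (ss x * (E1 x v / mm x) - Z1 x v) / N1 true x) / 2

/-- potentials of the primitive form -/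
noncomputable def AB : Bool → V → V → ℝ
  | false, x, v => (E1 x v / mm x - (Z1 x v * mm x + ss x * E1 x v) / N2 false x) / 2
  | true, x, v => (E1 x v / mm x / 2 + (ss x * (E1 x v / mm x) - Z1 x v) / N2 true x / 2) / 2

lemma smooth_AA (q : Bool) (v : V) : ContDiff ℝ ∞ (fun x => AA q x v) := by
  have h1 : ContDiff ℝ ∞ (fun x => E1 x v / mm x) :=
    (smooth_E1 v).div smooth_mm (fun x => (mm_pos x).ne')
  cases q
  · exact (h1.add ((((smooth_Z1 v).mul smooth_mm).add (smooth_ss.mul (smooth_E1 v))).div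
      (smooth_N1 false) (fun x => (N1_pos _ x).ne'))).div_const 2
  · exact ((contDiff_const.mul h1).sub (((smooth_ss.mul h1).sub (smooth_Z1 v)).div
      (smooth_N1 true) (fun x => (N1_pos _ x).ne'))).div_const 2

lemma smooth_AB (q : Bool) (v : V) : ContDiff ℝ ∞ (fun x => AB q x v) := by
  have h1 : ContDiff ℝ ∞ (fun x => E1 x v / mm x) :=
    (smooth_E1 v).div smooth_mm (fun x => (mm_pos x).ne')
  cases q
  · exact (h1.sub ((((smooth_Z1 v).mul smooth_mm).add (smooth_ss.mul (smooth_E1 v))).div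
      (smooth_N2 false) (fun x => (N2_pos _ x).ne'))).div_const 2
  · exact ((h1.div_const 2).add ((((smooth_ss.mul h1).sub (smooth_Z1 v)).div
      (smooth_N2 true) (fun x => (N2_pos _ x).ne')).div_const 2)).div_const 2

lemma line_N1 (q : Bool) (x u : V) : HasDerivAt (fun t : ℝ => N1 q (x + t • u))
    (if q then 2 * R2 x u + 2 * R1 x u else 2 * R2 x u * mm x + ss x * (2 * R1 x u)) 0 := by
  cases q
  · have h := ((line_ss x u).mul (line_mm x u)).const_add 1
    exact hd_congr h (fun t => rfl) (by simp)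
  · have h := (line_ss x u).add (line_mm x u)
    exact hd_congr h (fun t => rfl) (by simp)

lemma line_N2 (q : Bool) (x u : V) : HasDerivAt (fun t : ℝ => N2 q (x + t • u))
    (if q then 2 * R2 x u + 2 * (2 * R1 x u)
      else 2 * (2 * R2 x u * mm x + ss x * (2 * R1 x u))) 0 := by
  cases q
  · have h := (((line_ss x u).mul (line_mm x u)).const_mul 2).const_add 1
    exact hd_congr h (fun t => rfl) (by simp)
  · have h := (line_ss x u).add ((line_mm x u).const_mul 2)
    exact hd_congr h (fun t => rfl) (by simp)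

/-- derivative of the potential -/
lemma dAA_false (x u v : V) : fderiv ℝ (fun y => AA false y v) x u =
    ((E1 u v * mm x - E1 x v * (2 * R1 x u)) / mm x ^ 2 +
      ((Z1 u v * mm x + Z1 x v * (2 * R1 x u) + (2 * R2 x u * E1 x v + ss x * E1 u v)) * N1 false x
        - (Z1 x v * mm x + ss x * E1 x v) * (2 * R2 x u * mm x + ss x * (2 * R1 x u)))
          / N1 false x ^ 2) / 2 := by
  apply fderiv_of_line (smooth_AA false v)
  have h0 : x + (0 : ℝ) • u = x := by simp
  have hm := line_mm x u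
  have hs := line_ss x u
  have he := line_E1 x u v
  have hz := line_Z1 x u v
  have hN := line_N1 false x u
  have hm0 : mm (x + (0 : ℝ) • u) ≠ 0 := (mm_pos _).ne'
  have hN0 : N1 false (x + (0 : ℝ) • u) ≠ 0 := (N1_pos _ _).ne'
  have h := ((he.div hm hm0).add (((hz.mul hm).add (hs.mul he)).div hN hN0)).div_const 2
  exact hd_congr h (fun t => rfl) (by rw [h0]; try simp)

lemma dAA_true (x u v : V) : fderiv ℝ (fun y => AA true y v) x u =
    (2 * ((E1 u v * mm x - E1 x v * (2 * R1 x u)) / mm x ^ 2) -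
      ((2 * R2 x u * (E1 x v / mm x) + ss x * ((E1 u v * mm x - E1 x v * (2 * R1 x u)) / mm x ^ 2)
          - Z1 u v) * N1 true x
        - (ss x * (E1 x v / mm x) - Z1 x v) * (2 * R2 x u + 2 * R1 x u))
          / N1 true x ^ 2) / 2 := by
  apply fderiv_of_line (smooth_AA true v)
  have h0 : x + (0 : ℝ) • u = x := by simp
  have hm := line_mm x u
  have hs := line_ss x u
  have he := line_E1 x u v
  have hz := line_Z1 x u v
  have hN := line_N1 true x u
  have hm0 : mm (x + (0 : ℝ) • u) ≠ 0 := (mm_pos _).ne'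
  have hN0 : N1 true (x + (0 : ℝ) • u) ≠ 0 := (N1_pos _ _).ne'
  have h := (((he.div hm hm0).const_mul 2).sub
    (((hs.mul (he.div hm hm0)).sub hz).div hN hN0)).div_const 2
  exact hd_congr h (fun t => rfl) (by rw [h0]; try simp)

lemma dAB_false (x u v : V) : fderiv ℝ (fun y => AB false y v) x u =
    ((E1 u v * mm x - E1 x v * (2 * R1 x u)) / mm x ^ 2 -
      ((Z1 u v * mm x + Z1 x v * (2 * R1 x u) + (2 * R2 x u * E1 x v + ss x * E1 u v)) * N2 false x
        - (Z1 x v * mm x + ss x * E1 x v) * (2 * (2 * R2 x u * mm x + ss x * (2 * R1 x u))))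
          / N2 false x ^ 2) / 2 := by
  apply fderiv_of_line (smooth_AB false v)
  have h0 : x + (0 : ℝ) • u = x := by simp
  have hm := line_mm x u
  have hs := line_ss x u
  have he := line_E1 x u v
  have hz := line_Z1 x u v
  have hN := line_N2 false x u
  have hm0 : mm (x + (0 : ℝ) • u) ≠ 0 := (mm_pos _).ne'
  have hN0 : N2 false (x + (0 : ℝ) • u) ≠ 0 := (N2_pos _ _).ne'
  have h := ((he.div hm hm0).sub (((hz.mul hm).add (hs.mul he)).div hN hN0)).div_const 2
  exact hd_congr h (fun t => rfl) (by rw [h0]; try simp)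

lemma dAB_true (x u v : V) : fderiv ℝ (fun y => AB true y v) x u =
    ((E1 u v * mm x - E1 x v * (2 * R1 x u)) / mm x ^ 2 / 2 +
      ((2 * R2 x u * (E1 x v / mm x) + ss x * ((E1 u v * mm x - E1 x v * (2 * R1 x u)) / mm x ^ 2)
          - Z1 u v) * N2 true x
        - (ss x * (E1 x v / mm x) - Z1 x v) * (2 * R2 x u + 2 * (2 * R1 x u)))
          / N2 true x ^ 2 / 2) / 2 := by
  apply fderiv_of_line (smooth_AB true v)
  have h0 : x + (0 : ℝ) • u = x := by simp
  have hm := line_mm x u
  have hs := line_ss x u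
  have he := line_E1 x u v
  have hz := line_Z1 x u v
  have hN := line_N2 true x u
  have hm0 : mm (x + (0 : ℝ) • u) ≠ 0 := (mm_pos _).ne'
  have hN0 : N2 true (x + (0 : ℝ) • u) ≠ 0 := (N2_pos _ _).ne'
  have h := (((he.div hm hm0).div_const 2).add
    ((((hs.mul (he.div hm hm0)).sub hz).div hN hN0).div_const 2)).div_const 2
  exact hd_congr h (fun t => rfl) (by rw [h0]; try simp)

lemma imB_A (q : Bool) (x u v : V) : imB (pA q x) (qA q x) (cA q x) u v
    = pA q x * E1 u v + qA q x * Z1 u v + sg q / N1 q x ^ 2 * XX x u v := by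
  rw [imB_real]
  simp only [cA, E1, Z1, XX]
  ring

lemma imB_B (q : Bool) (x u v : V) : imB (pB q x) (qB q x) (cB q x) u v
    = pB q x * E1 u v + qB q x * Z1 u v - sg q / N2 q x ^ 2 * XX x u v := by
  rw [imB_real]
  simp only [cB, E1, Z1, XX]
  ring

lemma E1_swap (u v : V) : E1 v u = -E1 u v := by unfold E1; ring
lemma Z1_swap (u v : V) : Z1 v u = -Z1 u v := by unfold Z1; ring

lemma pot_A (q : Bool) (x u v : V) : imB (pA q x) (qA q x) (cA q x) u v
    = fderiv ℝ (fun y => AA q y v) x u - fderiv ℝ (fun y => AA q y u) x v := by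
  have h1 := k1 x u v
  have h2 := k2 x u v
  have h3 := k3 x u v
  have hm := (mm_pos x).ne'
  have hN := (N1_pos q x).ne'
  rw [imB_A]
  cases q
  · rw [dAA_false, dAA_false, E1_swap u v, Z1_swap u v]
    have h4 : N1 false x = 1 + ss x * mm x := rfl
    simp only [pA, qA, sg]
    linear_combination (norm := skip) (1 / mm x ^ 2 + ss x ^ 2 / N1 false x ^ 2) * h1
      + (mm x ^ 2 / N1 false x ^ 2) * h2
      - (1 / N1 false x - ss x * mm x / N1 false x ^ 2) * h3
    field_simp
    rw [h4]
    ring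
  · rw [dAA_true, dAA_true, E1_swap u v, Z1_swap u v]
    have h4 : N1 true x = ss x + mm x := rfl
    simp only [pA, qA, sg]
    linear_combination (norm := skip) (2 / mm x ^ 2 - ss x / (mm x ^ 2 * N1 true x)
      - ss x / (mm x * N1 true x ^ 2)) * h1 + (1 / N1 true x ^ 2) * h2 + (1 / N1 true x ^ 2) * h3
    field_simp
    rw [h4]
    ring

lemma pot_B (q : Bool) (x u v : V) : imB (pB q x) (qB q x) (cB q x) u v
    = fderiv ℝ (fun y => AB q y v) x u - fderiv ℝ (fun y => AB q y u) x v := by
  have h1 := k1 x u v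
  have h2 := k2 x u v
  have h3 := k3 x u v
  have hm := (mm_pos x).ne'
  have hN := (N2_pos q x).ne'
  rw [imB_B]
  cases q
  · rw [dAB_false, dAB_false, E1_swap u v, Z1_swap u v]
    have h4 : N2 false x = 1 + 2 * (ss x * mm x) := rfl
    simp only [pB, qB, sg]
    linear_combination (norm := skip) (1 / mm x ^ 2 - 2 * ss x ^ 2 / N2 false x ^ 2) * h1
      - (2 * mm x ^ 2 / N2 false x ^ 2) * h2
      + (1 / N2 false x - 2 * ss x * mm x / N2 false x ^ 2) * h3
    field_simp
    rw [h4]
    ring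
  · rw [dAB_true, dAB_true, E1_swap u v, Z1_swap u v]
    have h4 : N2 true x = ss x + 2 * mm x := rfl
    simp only [pB, qB, sg]
    linear_combination (norm := skip) (1 / (2 * mm x ^ 2) + ss x / (2 * mm x ^ 2 * N2 true x)
      + ss x / (mm x * N2 true x ^ 2)) * h1 - (1 / (2 * N2 true x ^ 2)) * h2
      - (1 / N2 true x ^ 2) * h3
    field_simp
    rw [h4]
    ring

/-- the forms `α + t β` are closed -/
lemma closed_form (q : Bool) (t : ℝ) : IsClosed2 (fun x =>
    imB (pA q x + t * pB q x) (qA q x + t * qB q x) (cA q x + t * cB q x)) := by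
  apply closed_of_potential _ (fun x v => AA q x v + t * AB q x v)
  · intro v
    exact (smooth_AA q v).add (contDiff_const.mul (smooth_AB q v))
  · intro x u v
    have hd : ∀ a b : V, fderiv ℝ (fun y => AA q y b + t * AB q y b) x a
        = fderiv ℝ (fun y => AA q y b) x a + t * fderiv ℝ (fun y => AB q y b) x a := by
      intro a b
      have h1 : DifferentiableAt ℝ (fun y => AA q y b) x :=
        (smooth_AA q b).differentiable (by simp) x
      have h2 : DifferentiableAt ℝ (fun y => AB q y b) x :=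
        (smooth_AB q b).differentiable (by simp) x
      have h3 := h1.hasFDerivAt.add (h2.hasFDerivAt.const_mul t)
      exact congrArg (fun L => L a) h3.fderiv
    rw [hd, hd, imB_add, LinearMap.add_apply, LinearMap.add_apply, LinearMap.smul_apply,
      LinearMap.smul_apply, pot_A, pot_B, smul_eq_mul]
    ring

end Pool.Agent.R21.HF
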